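import Pool.Agent.E8helper75.GB.Base

/-!
# GB-8: the bilinear estimate
-/

set_option autoImplicit false

namespace Pool.Agent.E8helper75.GB

open Finset
open Pool.Agent.H807R2.Dav (ee ee_add ee_int norm_ee ee_eq')
open Pool.Agent.E8helper66.GB

theorem t_TII (hCS : S_CS) (hCORE : S_CORE) (hPIG : S_PIG) (hCST : S_CST) : S_TII := by
  obtain ⟨C1, hCS⟩ := hCS
  obtain ⟨C2, hCORE⟩ := hCORE
  obtain ⟨C3, hPIG⟩ := hPIG
  obtain ⟨C4, hCST⟩ := hCST
  obtain ⟨D, hD⟩ : ∃ D, D = (2 * C1 + 1) * (C2 + 1) := ⟨_, rfl⟩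
  obtain ⟨C, hC⟩ : ∃ C, C = 28 + C4 + 2 * C3 * D + (2 * C1 + 1) * C2 := ⟨_, rfl⟩
  have key : ∀ (T : ℝ) (N M L X X' : ℕ) (E : ℕ → ℂ) (κ : ℤ → ℂ) (θ : ℤ → ℝ) (a b : ℕ → ℂ)
      (A B : ℝ), 2 ≤ T → Real.log N ≤ T → T ^ C ≤ M → M ≤ L → M * L ≤ N → X' ≤ N →
      (∀ y ∈ Icc 1 N, ‖E y‖ ≤ T) → SupLe N E (N / T ^ C) → (∀ h, ‖κ h‖ ≤ 1) → 0 ≤ A → 0 ≤ B →
      ∑ m ∈ Ioc M (2 * M), ‖a m‖ ^ 2 ≤ A * M → ∑ l ∈ Ioc L (2 * L), ‖b l‖ ^ 2 ≤ B * L →
      ‖BB M L X X' a b (FF N E κ θ)‖ ^ 2 ≤ A * B * ((N : ℝ) ^ 2 / T) ^ 2 := by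
    intro T N M L X X' E κ θ a b A B hT hlog hMC hML hMLN hX hE hsup hκ hA hB ha hb
    by_contra hcon
    push Not at hcon
    have hT0 : 0 < T := by linarith
    have hT1 : 1 ≤ T := by linarith
    have hM1 : 1 ≤ M := by
      have h1 : (1 : ℝ) ≤ M := (one_le_pow₀ hT1).trans hMC
      exact_mod_cast h1
    have hL1 : 1 ≤ L := hM1.trans hML
    have hN1 : 1 ≤ N := (Nat.mul_le_mul hM1 hL1).trans hMLN
    have hN1' : (1 : ℝ) ≤ N := by exact_mod_cast hN1
    have hN0 : (0 : ℝ) < N := by linarith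
    obtain ⟨σ, hσ⟩ : ∃ σ, σ = √A * √B := ⟨_, rfl⟩
    have hσ0 : 0 ≤ σ := by rw [hσ]; positivity
    have hσ2 : σ ^ 2 = A * B := by rw [hσ, mul_pow, Real.sq_sqrt hA, Real.sq_sqrt hB]
    have hMLN' : (M : ℝ) * L ≤ N := by exact_mod_cast hMLN
    have hZ : ∀ t h, ‖ZZ N M L X X' E a b t h‖ ≤ σ * (M * L) * T := fun t h => by
      rw [hσ]
      exact ZZ_le hT0.le hE hA hB ha hb t h
    have hbig : σ * ((N : ℝ) ^ 2 / T) < ‖BB M L X X' a b (FF N E κ θ)‖ := by
      apply lt_of_pow_lt_pow_left₀ 2 (norm_nonneg _)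
      rw [mul_pow, hσ2]
      exact hcon
    have hσpos : 0 < σ := by
      rcases hσ0.lt_or_eq with h | h
      · exact h
      exfalso
      have h1 : BB M L X X' a b (FF N E κ θ) = 0 := by
        rw [BB_eq hX]
        apply sum_eq_zero
        intro k _
        have h2 := hZ (θ k) k
        rw [← h, zero_mul, zero_mul] at h2
        rw [norm_le_zero_iff.1 h2, mul_zero]
      rw [h1, norm_zero, ← h, zero_mul] at hbig
      exact lt_irrefl _ hbig
    -- the large differences
    classical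
    obtain ⟨H, hH⟩ : ∃ H : Finset ℤ, H = (Icc (-(N : ℤ)) N).filter
      (fun h => σ * N / (6 * T) ≤ ‖ZZ N M L X X' E a b (θ h) h‖) := ⟨_, rfl⟩
    obtain ⟨κ1, hκ1⟩ : ∃ κ1 : ℤ → ℂ, κ1 = fun h => if h ∈ H then κ h else 0 := ⟨_, rfl⟩
    have hκ1' : ∀ h, ‖κ1 h‖ ≤ 1 := by
      intro h
      rw [hκ1]
      simp only
      split_ifs
      · exact hκ h
      · simp
    have hsmall : ‖BB M L X X' a b (FF N E κ θ) - BB M L X X' a b (FF N E κ1 θ)‖ ≤
        σ * (N : ℝ) ^ 2 / (2 * T) := by
      rw [BB_eq hX, BB_eq hX, ← sum_sub_distrib]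
      calc _ ≤ ∑ h ∈ Icc (-(N : ℤ)) N, σ * N / (6 * T) := by
            refine (norm_sum_le _ _).trans (sum_le_sum fun h hh => ?_)
            rw [hκ1]
            simp only
            by_cases h1 : h ∈ H
            · rw [if_pos h1, sub_self, norm_zero]
              positivity
            · rw [if_neg h1, zero_mul, sub_zero, norm_mul]
              have h2 : ‖ZZ N M L X X' E a b (θ h) h‖ ≤ σ * N / (6 * T) := by
                by_contra h3
                push Not at h3
                apply h1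
                rw [hH, mem_filter]
                exact ⟨hh, h3.le⟩
              calc _ ≤ 1 * ‖ZZ N M L X X' E a b (θ h) h‖ :=
                    mul_le_mul_of_nonneg_right (hκ h) (norm_nonneg _)
                _ ≤ _ := by rw [one_mul]; exact h2
        _ = (2 * N + 1) * (σ * N / (6 * T)) := by
            rw [sum_const, Int.card_Icc, nsmul_eq_mul]
            congr 1
            have h1 : ((N : ℤ) + 1 - -(N : ℤ)).toNat = 2 * N + 1 := by omega
            rw [h1]
            push_cast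
            ring
        _ ≤ (3 * N) * (σ * N / (6 * T)) := by
            apply mul_le_mul_of_nonneg_right _ (by positivity)
            linarith
        _ = _ := by
            field_simp
            ring
    have hbig1 : σ * (N : ℝ) ^ 2 / (2 * T) < ‖BB M L X X' a b (FF N E κ1 θ)‖ := by
      have h1 := norm_sub_norm_le (BB M L X X' a b (FF N E κ θ)) (BB M L X X' a b (FF N E κ1 θ))
      have h2 : σ * ((N : ℝ) ^ 2 / T) = σ * (N : ℝ) ^ 2 / (2 * T) + σ * (N : ℝ) ^ 2 / (2 * T) := by
        field_simp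
        ring
      linarith
    have hbig2 : A * B * ((N : ℝ) ^ 2 / T ^ 2) ^ 2 < ‖BB M L X X' a b (FF N E κ1 θ)‖ ^ 2 := by
      rw [← hσ2, ← mul_pow]
      apply pow_lt_pow_left₀ _ (by positivity) two_ne_zero
      refine lt_of_le_of_lt ?_ hbig1
      rw [← mul_div_assoc]
      apply div_le_div_of_nonneg_left (by positivity) (by positivity)
      nlinarith
    obtain ⟨α, G, hG1, hG2⟩ := hCS (T ^ 2) N M L X X' E κ1 θ a b A B (by nlinarith) hM1 hL1 hMLN
      hX (fun y hy => (hE y hy).trans (by nlinarith)) hκ1' hA hB ha hb hbig2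
    obtain ⟨T2, hT2⟩ : ∃ T2, T2 = T ^ (2 * C1 + 1) := ⟨_, rfl⟩
    have hTT2 : T ≤ T2 := by
      rw [hT2]
      exact le_self_pow₀ hT1 (by omega)
    have hT2' : (T ^ 2) ^ C1 ≤ T2 := by
      rw [hT2, ← pow_mul]
      exact pow_le_pow_right₀ hT1 (by omega)
    have hT20 : 0 < T2 := by linarith
    obtain ⟨P, hP1, hP2⟩ := hCORE T2 N M L θ α G (by linarith) (by linarith) (by
        refine le_trans ?_ hMC
        rw [hT2, ← pow_mul]
        exact pow_le_pow_right₀ hT1 (by omega)) hML hMLN (by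
        refine le_trans ?_ hG1
        exact div_le_div_of_nonneg_left (by positivity) (by positivity) hT2') (fun g hg => by
        obtain ⟨g1, g2, g3, g4, g5, _, _, g8⟩ := hG2 g hg
        refine ⟨g1, g2, g3, g4, g5, g8.trans ?_⟩
        exact div_le_div_of_nonneg_right hT2' (Nat.cast_nonneg _))
    obtain ⟨T3, hT3⟩ : ∃ T3, T3 = T ^ D := ⟨_, rfl⟩
    have hT3' : T3 = T2 ^ (C2 + 1) := by rw [hT3, hT2, ← pow_mul, hD]
    have hT2T3 : T2 ≤ T3 := by
      rw [hT3']
      exact le_self_pow₀ (by linarith) (by omega)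
    have hT2C : T2 ^ C2 ≤ T3 := by
      rw [hT3']
      exact pow_le_pow_right₀ (by linarith) (by omega)
    have hT30 : 0 < T3 := by linarith
    have hGH : ∀ g ∈ G, g.2.2 ∈ H := by
      intro g hg
      obtain ⟨_, _, _, _, _, g6, _, _⟩ := hG2 g hg
      rw [hκ1] at g6
      simp only at g6
      by_contra h1
      rw [if_neg h1] at g6
      exact g6 rfl
    obtain ⟨β, Hs, hH1, hH2⟩ := hPIG T3 (100 * T ^ 2) N θ P (by linarith) (by nlinarith) hN1
      ((div_le_div_of_nonneg_left (by positivity) (by positivity) hT2C).trans hP1) (fun p hp => by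
        obtain ⟨⟨g, hg, hg1⟩, ⟨g', hg', hg1'⟩, q, hq1, hq2, hq3⟩ := hP2 p hp
        refine ⟨?_, ?_, q, hq1, hq2.trans hT2C, hq3.trans
          (div_le_div_of_nonneg_right hT2C hN0.le)⟩
        · rw [← hg1]
          exact (hG2 g hg).2.2.2.1
        · rw [← hg1']
          exact (hG2 g' hg').2.2.2.1)
    have hHs : ∀ h ∈ Hs, h ∈ H := by
      intro h hh
      obtain ⟨⟨p, hp, hp1⟩, _⟩ := hH2 h hh
      obtain ⟨_, ⟨g', hg', hg1'⟩, _⟩ := hP2 p hp
      rw [← hp1, ← hg1']
      exact hGH g' hg'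
    have hlow : ∀ h ∈ Hs, σ * N / (12 * T) ≤ ‖ZZ N M L X X' E a b β h‖ := by
      intro h hh
      have h1 := hHs h hh
      rw [hH, mem_filter] at h1
      have h2 := (hH2 h hh).2
      have h3 := ZZ_sub_le (X := X) hX hT0.le hE hA hB ha hb (θ h) β h
      rw [← hσ] at h3
      have h4 : σ * (M * L) * (T * (2 * Real.pi * (N * nn (θ h - β)))) ≤ σ * N / (12 * T) := by
        have h5 : (N : ℝ) * nn (θ h - β) ≤ 1 / (100 * T ^ 2) := by
          calc (N : ℝ) * nn (θ h - β) ≤ N * (1 / (100 * T ^ 2 * N)) :=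
                mul_le_mul_of_nonneg_left h2 hN0.le
            _ = _ := by
                field_simp
        have h6 : 2 * Real.pi * (N * nn (θ h - β)) ≤ 7 * (1 / (100 * T ^ 2)) := by
          apply mul_le_mul _ h5 (mul_nonneg hN0.le (nn_nonneg _)) (by norm_num)
          linarith [Real.pi_lt_d2]
        calc σ * (M * L) * (T * (2 * Real.pi * (N * nn (θ h - β)))) ≤
              σ * N * (T * (7 * (1 / (100 * T ^ 2)))) := by
              apply mul_le_mul
              · exact mul_le_mul_of_nonneg_left hMLN' hσ0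
              · exact mul_le_mul_of_nonneg_left h6 hT0.le
              · exact mul_nonneg hT0.le (mul_nonneg (by positivity)
                  (mul_nonneg hN0.le (nn_nonneg _)))
              · positivity
          _ = (7 / 100) * (σ * N / T) := by
              field_simp
          _ ≤ (1 / 12) * (σ * N / T) := by
              apply mul_le_mul_of_nonneg_right (by norm_num) (by positivity)
          _ = _ := by
              field_simp
      have h7 := norm_sub_norm_le (ZZ N M L X X' E a b (θ h) h) (ZZ N M L X X' E a b β h)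
      have h8 : σ * N / (6 * T) = σ * N / (12 * T) + σ * N / (12 * T) := by
        field_simp
        ring
      linarith [h1.2]
    obtain ⟨κ2, hκ2⟩ : ∃ κ2 : ℤ → ℂ, κ2 = fun h => if h ∈ Hs then
      (starRingEnd ℂ) (ZZ N M L X X' E a b β h) / (‖ZZ N M L X X' E a b β h‖ : ℂ) else 0 :=
      ⟨_, rfl⟩
    have hκ2' : ∀ h, ‖κ2 h‖ ≤ 1 := by
      intro h
      rw [hκ2]
      simp only
      split_ifs
      · rw [norm_div, RCLike.norm_conj, Complex.norm_real, norm_norm]
        exact div_self_le_one _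
      · simp
    have hBB2 : BB M L X X' a b (FF N E κ2 (fun _ => β)) =
        ((∑ h ∈ Hs, ‖ZZ N M L X X' E a b β h‖ : ℝ) : ℂ) := by
      rw [BB_eq hX, Complex.ofReal_sum]
      have h1 : Hs ⊆ Icc (-(N : ℤ)) N := by
        intro h hh
        have := hHs h hh
        rw [hH, mem_filter] at this
        exact this.1
      rw [← sum_subset h1]
      · apply sum_congr rfl
        intro h hh
        rw [hκ2]
        simp only
        rw [if_pos hh]
        by_cases h0 : ZZ N M L X X' E a b β h = 0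
        · rw [h0]
          simp
        · have h2 : (‖ZZ N M L X X' E a b β h‖ : ℂ) ≠ 0 := by
            simpa using h0
          rw [div_mul_eq_mul_div, mul_comm, Complex.mul_conj, Complex.normSq_eq_norm_sq]
          field_simp
          push_cast
          ring
      · intro h _ hh
        rw [hκ2]
        simp only
        rw [if_neg hh, zero_mul]
    have hY : σ * (N : ℝ) ^ 2 / (1200 * T ^ 3 * T3 ^ C3) ≤
        ‖BB M L X X' a b (FF N E κ2 (fun _ => β))‖ := by
      rw [hBB2, Complex.norm_real, Real.norm_eq_abs,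
        abs_of_nonneg (sum_nonneg fun _ _ => norm_nonneg _)]
      calc σ * (N : ℝ) ^ 2 / (1200 * T ^ 3 * T3 ^ C3) =
            (N / (T3 ^ C3 * (100 * T ^ 2))) * (σ * N / (12 * T)) := by
            field_simp
            norm_num
        _ ≤ (Hs.card : ℝ) * (σ * N / (12 * T)) :=
            mul_le_mul_of_nonneg_right hH1 (by positivity)
        _ = ∑ h ∈ Hs, (σ * N / (12 * T)) := by
            rw [sum_const, nsmul_eq_mul]
        _ ≤ _ := sum_le_sum hlow
    have hup := hCST T (T ^ C) N M L X X' E κ2 β a b A B hT (one_le_pow₀ hT1) hlog hN1 hM1 hL1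
      hMLN hX hE hsup hκ2' hA hB ha hb
    have hfin : (σ * (N : ℝ) ^ 2 / (1200 * T ^ 3 * T3 ^ C3)) ^ 2 ≤
        A * B * (N : ℝ) ^ 4 * T ^ C4 / T ^ C :=
      (pow_le_pow_left₀ (by positivity) hY 2).trans hup
    rw [← hσ2] at hfin
    have h1 : (σ * (N : ℝ) ^ 2 / (1200 * T ^ 3 * T3 ^ C3)) ^ 2 =
        (σ ^ 2 * N ^ 4) / (1440000 * (T ^ 6 * T ^ (2 * C3 * D))) := by
      rw [hT3, div_pow]
      congr 1
      · ring
      · rw [← pow_mul, mul_pow, mul_pow, ← pow_mul, ← pow_mul]
        norm_num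
        rw [mul_assoc]
        congr 3
        ring
    rw [h1, div_le_div_iff₀ (by positivity) (by positivity)] at hfin
    have h2 : T ^ C ≤ T ^ C4 * (1440000 * (T ^ 6 * T ^ (2 * C3 * D))) := by
      have h3 : 0 < σ ^ 2 * (N : ℝ) ^ 4 := by positivity
      apply le_of_mul_le_mul_left _ h3
      calc _ ≤ _ := hfin
        _ = _ := by ring
    have h4 : T ^ C4 * (1440000 * (T ^ 6 * T ^ (2 * C3 * D))) < T ^ C := by
      calc T ^ C4 * (1440000 * (T ^ 6 * T ^ (2 * C3 * D))) <
            T ^ C4 * (T ^ 22 * (T ^ 6 * T ^ (2 * C3 * D))) := by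
            apply mul_lt_mul_of_pos_left _ (by positivity)
            apply mul_lt_mul_of_pos_right _ (by positivity)
            calc (1440000 : ℝ) < 2 ^ 22 := by norm_num
              _ ≤ T ^ 22 := pow_le_pow_left₀ (by norm_num) hT 22
        _ = T ^ (28 + C4 + 2 * C3 * D) := by
            rw [← pow_add, ← pow_add, ← pow_add]
            congr 1
            ring
        _ ≤ T ^ C := pow_le_pow_right₀ hT1 (by omega)
    linarith
  refine ⟨C, ?_⟩
  intro T N M L X X' E κ θ a b A B hT hlog hM hL hMLN hX hE hsup hκ hA hB ha hb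
  rcases le_total M L with h | h
  · exact key T N M L X X' E κ θ a b A B hT hlog hM h hMLN hX hE hsup hκ hA hB ha hb
  · rw [BB_swap, mul_comm A B]
    exact key T N L M X X' E κ θ b a B A hT hlog hL h (by rwa [mul_comm]) hX hE hsup hκ hB hA hb ha

end Pool.Agent.E8helper75.GB
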