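import Pool.Agent.E8helper66.GB.Stm

/-!
# Basic facts: distance to the nearest integer, dual functions
-/

set_option autoImplicit false

namespace Pool.Agent.E8helper75.GB

open Finset
open Pool.Agent.H807R2.Dav (ee ee_add ee_int norm_ee ee_eq')
open Pool.Agent.E8helper66.GB

lemma nn_nonneg (x : ℝ) : 0 ≤ nn x := norm_nonneg _

lemma nn_eq (x : ℝ) : nn x = |x - round x| := UnitAddCircle.norm_eq

lemma nn_nat_mul (k : ℕ) (x : ℝ) : nn (k * x) ≤ k * nn x := by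
  unfold nn
  have h : ((k * x : ℝ) : UnitAddCircle) = k • (x : UnitAddCircle) := by
    rw [← nsmul_eq_mul]
    rfl
  rw [h]
  exact norm_nsmul_le

lemma ee_sub_le (x y : ℝ) : ‖ee x - ee y‖ ≤ 2 * Real.pi * nn (x - y) := by
  have h1 : ee x = ee y * ee ((x - y) - round (x - y)) := by
    have h2 : ee (x - y) = ee ((x - y) - round (x - y)) := by
      have h3 : x - y = ((x - y) - round (x - y)) + (round (x - y) : ℝ) := by ring
      conv_lhs => rw [h3]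
      rw [ee_add, ee_int, mul_one]
    rw [← h2, ← ee_add]
    congr 1
    ring
  have h4 : ee x - ee y = ee y * (ee ((x - y) - round (x - y)) - 1) := by
    rw [h1]
    ring
  rw [h4, norm_mul, norm_ee, one_mul, ee_eq', nn_eq]
  refine (Real.norm_exp_I_mul_ofReal_sub_one_le).trans (le_of_eq ?_)
  rw [Real.norm_eq_abs, abs_mul, abs_of_pos (by positivity)]

/-- the value `E (x + h)`, zero outside `[1, N]` -/
noncomputable def Eh (N : ℕ) (E : ℕ → ℂ) (x : ℕ) (h : ℤ) : ℂ :=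
  if 1 ≤ (x : ℤ) + h ∧ (x : ℤ) + h ≤ N then E ((x : ℤ) + h).toNat else 0

lemma Eh_le {N : ℕ} {E : ℕ → ℂ} {T : ℝ} (hT : 0 ≤ T) (hE : ∀ y ∈ Icc 1 N, ‖E y‖ ≤ T) (x : ℕ)
    (h : ℤ) : ‖Eh N E x h‖ ≤ T := by
  unfold Eh
  split_ifs with h1
  · apply hE
    rw [mem_Icc]
    omega
  · simpa using hT

lemma FF_eq {N x : ℕ} (hx : x ≤ N) (E : ℕ → ℂ) (κ : ℤ → ℂ) (θ : ℤ → ℝ) :
    FF N E κ θ x = ∑ h ∈ Icc (-(N : ℤ)) N, κ h * (Eh N E x h * ee (θ h * x)) := by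
  have h1 : ∑ h ∈ Icc (-(N : ℤ)) N, κ h * (Eh N E x h * ee (θ h * x)) =
      ∑ h ∈ (Icc (-(N : ℤ)) N).filter (fun h => 1 ≤ (x : ℤ) + h ∧ (x : ℤ) + h ≤ N),
        κ h * (E ((x : ℤ) + h).toNat * ee (θ h * x)) := by
    rw [sum_filter]
    apply sum_congr rfl
    intro h _
    unfold Eh
    split_ifs <;> simp
  rw [h1]
  unfold FF
  refine sum_nbij' (fun y => (y : ℤ) - x) (fun h => ((x : ℤ) + h).toNat) ?_ ?_ ?_ ?_ ?_
  · intro y hy
    simp only [mem_Icc] at hy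
    simp only [mem_filter, mem_Icc]
    omega
  · intro h hh
    simp only [mem_filter, mem_Icc] at hh
    simp only [mem_Icc]
    omega
  · intro y _
    simp
  · intro h hh
    simp only [mem_filter, mem_Icc] at hh
    omega
  · intro y _
    simp only [add_sub_cancel, Int.toNat_natCast]
    ring

/-- the bilinear sum for one difference -/
noncomputable def ZZ (N M L X X' : ℕ) (E a b : ℕ → ℂ) (t : ℝ) (h : ℤ) : ℂ :=
  ∑ m ∈ Ioc M (2 * M), ∑ l ∈ Ioc L (2 * L), a m * b l *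
    (if X < m * l ∧ m * l ≤ X' then Eh N E (m * l) h * ee (t * (m * l : ℕ)) else 0)

lemma BB_eq {N M L X X' : ℕ} (hX : X' ≤ N) (E : ℕ → ℂ) (κ : ℤ → ℂ) (θ : ℤ → ℝ) (a b : ℕ → ℂ) :
    BB M L X X' a b (FF N E κ θ) =
      ∑ h ∈ Icc (-(N : ℤ)) N, κ h * ZZ N M L X X' E a b (θ h) h := by
  unfold BB ZZ
  simp only [mul_sum]
  rw [sum_comm' (t' := Ioc M (2 * M)) (s' := fun _ => Icc (-(N : ℤ)) N) (by simp)]
  apply sum_congr rfl
  intro m _
  rw [sum_comm' (t' := Ioc L (2 * L)) (s' := fun _ => Icc (-(N : ℤ)) N) (by simp)]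
  apply sum_congr rfl
  intro l _
  split_ifs with h
  · rw [FF_eq (h.2.trans hX), mul_sum]
    apply sum_congr rfl
    intro h _
    push_cast
    ring
  · simp

/-- `BB` is symmetric -/
lemma BB_swap (M L X X' : ℕ) (a b F : ℕ → ℂ) : BB M L X X' a b F = BB L M X X' b a F := by
  unfold BB
  rw [sum_comm]
  apply sum_congr rfl
  intro l _
  apply sum_congr rfl
  intro m _
  rw [mul_comm m l, mul_comm (a m)]

lemma sum_le_sqrt {M : ℕ} {a : ℕ → ℂ} {A : ℝ} (hA : 0 ≤ A)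
    (h : ∑ m ∈ Ioc M (2 * M), ‖a m‖ ^ 2 ≤ A * M) : ∑ m ∈ Ioc M (2 * M), ‖a m‖ ≤ √A * M := by
  have h1 := sum_mul_sq_le_sq_mul_sq (Ioc M (2 * M)) (fun _ => (1 : ℝ)) fun m => ‖a m‖
  simp only [one_mul, one_pow, sum_const, Nat.card_Ioc, nsmul_eq_mul, mul_one] at h1
  have h2 : ((2 * M - M : ℕ) : ℝ) = M := by
    congr 1
    omega
  rw [h2] at h1
  have h3 : (∑ m ∈ Ioc M (2 * M), ‖a m‖) ^ 2 ≤ (√A * M) ^ 2 := by
    rw [mul_pow, Real.sq_sqrt hA]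
    calc _ ≤ (M : ℝ) * ∑ m ∈ Ioc M (2 * M), ‖a m‖ ^ 2 := h1
      _ ≤ M * (A * M) := mul_le_mul_of_nonneg_left h (Nat.cast_nonneg _)
      _ = A * M ^ 2 := by ring
  exact le_of_sq_le_sq h3 (by positivity)

lemma ZZ_le {N M L X X' : ℕ} {E a b : ℕ → ℂ} {T A B : ℝ} (hT : 0 ≤ T)
    (hE : ∀ y ∈ Icc 1 N, ‖E y‖ ≤ T) (hA : 0 ≤ A) (hB : 0 ≤ B)
    (ha : ∑ m ∈ Ioc M (2 * M), ‖a m‖ ^ 2 ≤ A * M) (hb : ∑ l ∈ Ioc L (2 * L), ‖b l‖ ^ 2 ≤ B * L)
    (t : ℝ) (h : ℤ) : ‖ZZ N M L X X' E a b t h‖ ≤ √A * √B * (M * L) * T := by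
  unfold ZZ
  have h1 : ∀ m l : ℕ, ‖a m * b l * (if X < m * l ∧ m * l ≤ X' then
      Eh N E (m * l) h * ee (t * (m * l : ℕ)) else 0)‖ ≤ ‖a m‖ * ‖b l‖ * T := by
    intro m l
    rw [norm_mul, norm_mul]
    apply mul_le_mul_of_nonneg_left _ (by positivity)
    split_ifs
    · rw [norm_mul, norm_ee, mul_one]
      exact Eh_le hT hE _ _
    · simpa using hT
  calc _ ≤ ∑ m ∈ Ioc M (2 * M), ∑ l ∈ Ioc L (2 * L), ‖a m‖ * ‖b l‖ * T :=
        (norm_sum_le _ _).trans (sum_le_sum fun m _ => (norm_sum_le _ _).trans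
          (sum_le_sum fun l _ => h1 m l))
    _ = (∑ m ∈ Ioc M (2 * M), ‖a m‖) * (∑ l ∈ Ioc L (2 * L), ‖b l‖) * T := by
        rw [sum_mul_sum, sum_mul]
        simp only [sum_mul]
    _ ≤ (√A * M) * (√B * L) * T := by
        apply mul_le_mul_of_nonneg_right _ hT
        exact mul_le_mul (sum_le_sqrt hA ha) (sum_le_sqrt hB hb)
          (sum_nonneg fun _ _ => norm_nonneg _) (by positivity)
    _ = _ := by ring

lemma ZZ_sub_le {N M L X X' : ℕ} (hX : X' ≤ N) {E a b : ℕ → ℂ} {T A B : ℝ} (hT : 0 ≤ T)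
    (hE : ∀ y ∈ Icc 1 N, ‖E y‖ ≤ T) (hA : 0 ≤ A) (hB : 0 ≤ B)
    (ha : ∑ m ∈ Ioc M (2 * M), ‖a m‖ ^ 2 ≤ A * M) (hb : ∑ l ∈ Ioc L (2 * L), ‖b l‖ ^ 2 ≤ B * L)
    (t t' : ℝ) (h : ℤ) : ‖ZZ N M L X X' E a b t h - ZZ N M L X X' E a b t' h‖ ≤
      √A * √B * (M * L) * (T * (2 * Real.pi * (N * nn (t - t')))) := by
  unfold ZZ
  rw [← sum_sub_distrib]
  simp only [← sum_sub_distrib]
  have hD : 0 ≤ T * (2 * Real.pi * (N * nn (t - t'))) :=
    mul_nonneg hT (mul_nonneg (by positivity) (mul_nonneg (Nat.cast_nonneg _) (nn_nonneg _)))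
  have h1 : ∀ m l : ℕ, ‖a m * b l * (if X < m * l ∧ m * l ≤ X' then
      Eh N E (m * l) h * ee (t * (m * l : ℕ)) else 0) - a m * b l *
      (if X < m * l ∧ m * l ≤ X' then Eh N E (m * l) h * ee (t' * (m * l : ℕ)) else 0)‖ ≤
      ‖a m‖ * ‖b l‖ * (T * (2 * Real.pi * (N * nn (t - t')))) := by
    intro m l
    rw [← mul_sub, norm_mul, norm_mul]
    apply mul_le_mul_of_nonneg_left _ (by positivity)
    split_ifs with hc
    · rw [← mul_sub, norm_mul]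
      apply mul_le_mul (Eh_le hT hE _ _) _ (norm_nonneg _) hT
      refine (ee_sub_le _ _).trans (mul_le_mul_of_nonneg_left ?_ (by positivity))
      have e : t * ((m * l : ℕ) : ℝ) - t' * ((m * l : ℕ) : ℝ) = ((m * l : ℕ) : ℝ) * (t - t') := by
        ring
      rw [e]
      refine (nn_nat_mul _ _).trans (mul_le_mul_of_nonneg_right ?_ (nn_nonneg _))
      exact_mod_cast hc.2.trans hX
    · simpa using hD
  calc _ ≤ ∑ m ∈ Ioc M (2 * M), ∑ l ∈ Ioc L (2 * L),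
        ‖a m‖ * ‖b l‖ * (T * (2 * Real.pi * (N * nn (t - t')))) :=
        (norm_sum_le _ _).trans (sum_le_sum fun m _ => (norm_sum_le _ _).trans
          (sum_le_sum fun l _ => h1 m l))
    _ = (∑ m ∈ Ioc M (2 * M), ‖a m‖) * (∑ l ∈ Ioc L (2 * L), ‖b l‖) *
        (T * (2 * Real.pi * (N * nn (t - t')))) := by
        rw [sum_mul_sum, sum_mul]
        simp only [sum_mul]
    _ ≤ (√A * M) * (√B * L) * (T * (2 * Real.pi * (N * nn (t - t')))) := by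
        apply mul_le_mul_of_nonneg_right _ hD
        exact mul_le_mul (sum_le_sqrt hA ha) (sum_le_sqrt hB hb)
          (sum_nonneg fun _ _ => norm_nonneg _) (by positivity)
    _ = _ := by ring

end Pool.Agent.E8helper75.GB
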